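import Mathlib
import Pool.Agent.R202.Rot

/-!
Fourier coefficients of measures on the circle: convolutions, limits.
-/

set_option autoImplicit false
open MeasureTheory Filter Topology

namespace Pool.Agent.R203.ID

abbrev TT := UnitAddCircle

/-- Fourier coefficients -/
noncomputable def hat (μ : Measure TT) (m : ℤ) : ℂ := ∫ x, (fourier m x : ℂ) ∂μ

lemma norm_f (m : ℤ) (x : TT) : ‖(fourier m x : ℂ)‖ = 1 := by
  rw [fourier_apply]; exact Circle.norm_coe _

lemma f_add (m : ℤ) (x y : TT) : (fourier m (x + y) : ℂ) = fourier m x * fourier m y := by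
  rw [fourier_apply, fourier_apply, fourier_apply, smul_add, AddCircle.toCircle_add]
  push_cast; rfl

lemma f_zero (m : ℤ) : (fourier m (0 : TT) : ℂ) = 1 := by
  rw [fourier_apply, smul_zero, AddCircle.toCircle_zero]; rfl

lemma f_sum (m : ℤ) {ι : Type*} (s : Finset ι) (y : ι → TT) :
    (fourier m (∑ i ∈ s, y i) : ℂ) = ∏ i ∈ s, fourier m (y i) := by
  classical
  induction s using Finset.induction_on with
  | empty => simp [f_zero]
  | insert a s ha ih => rw [Finset.sum_insert ha, Finset.prod_insert ha, f_add, ih]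

lemma f_smul (m d : ℤ) (x : TT) : (fourier m (d • x) : ℂ) = fourier (m * d) x := by
  rw [fourier_apply, fourier_apply, mul_smul]

lemma f_nsmul (m : ℤ) (d : ℕ) (x : TT) : (fourier m (d • x) : ℂ) = fourier (m * d) x := by
  rw [← natCast_zsmul, f_smul]

lemma f_neg (m : ℤ) (x : TT) : (fourier m (-x) : ℂ) = (starRingEnd ℂ) (fourier m x) := by
  rw [fourier_apply, smul_neg, AddCircle.toCircle_neg, fourier_apply, Circle.coe_inv_eq_conj]

lemma integrable_f (μ : Measure TT) [IsFiniteMeasure μ] (m : ℤ) :
    Integrable (fun x : TT => (fourier m x : ℂ)) μ :=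
  Integrable.of_bound (fourier m).continuous.aestronglyMeasurable 1
    (Eventually.of_forall fun x => (norm_f m x).le)

lemma norm_hat_le (μ : Measure TT) [IsProbabilityMeasure μ] (m : ℤ) : ‖hat μ m‖ ≤ 1 := by
  have := norm_integral_le_of_norm_le_const (μ := μ) (f := fun x : TT => (fourier m x : ℂ))
    (Eventually.of_forall fun x => (norm_f m x).le)
  simpa [hat] using this

lemma ext_hat {μ ν : Measure TT} [IsFiniteMeasure μ] [IsFiniteMeasure ν]
    (h : ∀ m : ℤ, hat μ m = hat ν m) : μ = ν :=
  Pool.Agent.R202.ext_fourier h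

lemma hat_map_nsmul (μ : Measure TT) [IsFiniteMeasure μ] (d : ℕ) (m : ℤ) :
    hat (μ.map fun x : TT => d • x) m = hat μ (m * d) := by
  unfold hat
  rw [integral_map (by fun_prop) (fourier m).continuous.aestronglyMeasurable]
  simp only [f_nsmul]

lemma hat_map_smul (μ : Measure TT) [IsFiniteMeasure μ] (d m : ℤ) :
    hat (μ.map fun x : TT => d • x) m = hat μ (m * d) := by
  unfold hat
  rw [integral_map (by fun_prop) (fourier m).continuous.aestronglyMeasurable]
  simp only [f_smul]

/-- invariance in terms of the Fourier coefficients -/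
lemma inv_iff {μ : Measure TT} [IsFiniteMeasure μ] (d : ℕ) :
    MeasurePreserving (fun x : TT => d • x) μ μ ↔ ∀ m : ℤ, hat μ (m * d) = hat μ m := by
  constructor
  · intro h m
    rw [← hat_map_nsmul, h.map_eq]
  · intro h
    refine ⟨by fun_prop, ext_hat fun m => ?_⟩
    rw [hat_map_nsmul, h]

/-! ### sums of independent variables -/

/-- law of the sum of `n` independent variables with law `μ` -/
noncomputable def nfold (n : ℕ) (μ : Measure TT) : Measure TT :=
  (Measure.pi fun _ : Fin n => μ).map fun y => ∑ i, y i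

lemma meas_sum (n : ℕ) : Measurable fun y : Fin n → TT => ∑ i, y i := by fun_prop

instance nfold_prob (n : ℕ) (μ : Measure TT) [IsProbabilityMeasure μ] :
    IsProbabilityMeasure (nfold n μ) :=
  Measure.isProbabilityMeasure_map (meas_sum n).aemeasurable

lemma hat_nfold (n : ℕ) (μ : Measure TT) [IsProbabilityMeasure μ] (m : ℤ) :
    hat (nfold n μ) m = hat μ m ^ n := by
  unfold hat nfold
  rw [integral_map (meas_sum n).aemeasurable (fourier m).continuous.aestronglyMeasurable]
  simp only [f_sum]
  rw [integral_fintype_prod_eq_pow (fun x : TT => (fourier m x : ℂ)), Fintype.card_fin]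

lemma nfold_zero_ge (n : ℕ) (μ : Measure TT) [IsProbabilityMeasure μ] :
    μ {0} ^ n ≤ nfold n μ {0} := by
  unfold nfold
  rw [Measure.map_apply (meas_sum n) (measurableSet_singleton 0)]
  calc μ {0} ^ n = (Measure.pi fun _ : Fin n => μ) (Set.univ.pi fun _ => {0}) := by
        rw [Measure.pi_pi]; simp
    _ ≤ _ := by
        apply measure_mono
        intro y hy
        simp only [Set.mem_pi, Set.mem_univ, forall_const, Set.mem_singleton_iff] at hy
        simp [hy]

/-- law of the sum of two independent variables -/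
noncomputable def conv (μ ν : Measure TT) : Measure TT := (μ.prod ν).map fun z => z.1 + z.2

instance conv_prob (μ ν : Measure TT) [IsProbabilityMeasure μ] [IsProbabilityMeasure ν] :
    IsProbabilityMeasure (conv μ ν) :=
  Measure.isProbabilityMeasure_map (by fun_prop)

lemma hat_conv (μ ν : Measure TT) [IsProbabilityMeasure μ] [IsProbabilityMeasure ν] (m : ℤ) :
    hat (conv μ ν) m = hat μ m * hat ν m := by
  unfold hat conv
  rw [integral_map (by fun_prop) (fourier m).continuous.aestronglyMeasurable]
  simp only [f_add]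
  exact integral_prod_mul (fun x : TT => (fourier m x : ℂ)) (fun x : TT => (fourier m x : ℂ))

/-- the largest atom of a convolution -/
lemma conv_atom {μ ν : Measure TT} [IsProbabilityMeasure μ] [IsProbabilityMeasure ν] {a : ENNReal}
    (h : ∀ x, ν {x} ≤ a) (x : TT) : conv μ ν {x} ≤ a := by
  unfold conv
  rw [Measure.map_apply (by fun_prop) (measurableSet_singleton x),
    Measure.prod_apply (measurableSet_preimage (by fun_prop) (measurableSet_singleton x))]
  calc ∫⁻ y, ν (Prod.mk y ⁻¹' ((fun z : TT × TT => z.1 + z.2) ⁻¹' {x})) ∂μ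
      ≤ ∫⁻ _y, a ∂μ := by
        apply lintegral_mono
        intro y
        refine (measure_mono ?_).trans (h (x - y))
        intro w hw
        simp only [Set.mem_preimage, Set.mem_singleton_iff] at hw ⊢
        rw [← hw]; abel
    _ = a := by simp

/-- law of `m (x - y)` -/
noncomputable def sym (d : ℤ) (μ : Measure TT) : Measure TT :=
  (μ.prod μ).map fun z => d • (z.1 - z.2)

instance sym_prob (d : ℤ) (μ : Measure TT) [IsProbabilityMeasure μ] :
    IsProbabilityMeasure (sym d μ) :=
  Measure.isProbabilityMeasure_map (by fun_prop)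

lemma hat_sym (d : ℤ) (μ : Measure TT) [IsProbabilityMeasure μ] (m : ℤ) :
    hat (sym d μ) m = ((‖hat μ (m * d)‖ ^ 2 : ℝ) : ℂ) := by
  unfold sym
  have e : hat ((μ.prod μ).map fun z : TT × TT => d • (z.1 - z.2)) m =
      hat μ (m * d) * (starRingEnd ℂ) (hat μ (m * d)) := by
    unfold hat
    rw [integral_map (by fun_prop) (fourier m).continuous.aestronglyMeasurable]
    simp only [f_smul, sub_eq_add_neg, f_add, f_neg]
    rw [integral_prod_mul (fun x : TT => (fourier (m * d) x : ℂ))
      (fun x : TT => (starRingEnd ℂ) (fourier (m * d) x : ℂ)), integral_conj]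
  rw [e, Complex.mul_conj, Complex.normSq_eq_norm_sq]

/-! ### limits -/

/-- a pointwise limit of Fourier coefficients of probability measures -/
theorem exists_limit (μ : ℕ → Measure TT) (hμ : ∀ n, IsProbabilityMeasure (μ n)) (φ : ℤ → ℂ)
    (h : ∀ m : ℤ, Tendsto (fun n => hat (μ n) m) atTop (𝓝 (φ m))) :
    ∃ ν : Measure TT, IsProbabilityMeasure ν ∧ ∀ m, hat ν m = φ m := by
  set u : ℕ → ProbabilityMeasure TT := fun n => ⟨μ n, hμ n⟩ with hu
  set F : Ultrafilter ℕ := hyperfilter ℕ with hF
  have hFle : (F : Filter ℕ) ≤ atTop := by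
    rw [← Nat.cofinite_eq_atTop]; exact hyperfilter_le_cofinite
  obtain ⟨ν, -, hν⟩ := (isCompact_univ (X := ProbabilityMeasure TT)).ultrafilter_le_nhds
    (F.map u) (by simp)
  have ht : Tendsto u F (𝓝 ν) := hν
  refine ⟨ν, inferInstance, fun m => ?_⟩
  have h1 := (ProbabilityMeasure.tendsto_iff_forall_integral_rclike_tendsto ℂ).1 ht
    (BoundedContinuousFunction.mkOfCompact (fourier m))
  have h2 : Tendsto (fun n => hat (μ n) m) F (𝓝 (hat ν m)) := h1
  have h3 : Tendsto (fun n => hat (μ n) m) F (𝓝 (φ m)) := (h m).mono_left hFle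
  exact tendsto_nhds_unique h2 h3

end Pool.Agent.R203.ID
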