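import Mathlib
import Pool.Agent.R203.ID.Fou

/-!
Compound Poisson laws on the circle.
-/

set_option autoImplicit false
open MeasureTheory Filter Topology
open scoped NNReal ENNReal Nat

namespace Pool.Agent.R203.ID

/-- Poisson weights -/
noncomputable def w (r : ℝ≥0) (n : ℕ) : ℝ := Real.exp (-r) * (r : ℝ) ^ n / n !

lemma w_nonneg (r : ℝ≥0) (n : ℕ) : 0 ≤ w r n := by unfold w; positivity

lemma w_hasSum (r : ℝ≥0) : HasSum (w r) 1 := ProbabilityTheory.hasSum_one_poissonMeasure r

lemma w_sum (r : ℝ≥0) : ∑' n, ENNReal.ofReal (w r n) = 1 := by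
  rw [← ENNReal.ofReal_tsum_of_nonneg (w_nonneg r) (w_hasSum r).summable, (w_hasSum r).tsum_eq,
    ENNReal.ofReal_one]

/-- the compound Poisson law -/
noncomputable def cp (r : ℝ≥0) (κ : Measure TT) : Measure TT :=
  Measure.sum fun j : ℕ => ENNReal.ofReal (w r j) • nfold j κ

instance cp_prob (r : ℝ≥0) (κ : Measure TT) [IsProbabilityMeasure κ] :
    IsProbabilityMeasure (cp r κ) := ⟨by
  unfold cp
  rw [Measure.sum_apply _ MeasurableSet.univ]
  simp only [Measure.smul_apply, measure_univ, smul_eq_mul, mul_one]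
  exact w_sum r⟩

lemma hat_cp (r : ℝ≥0) (κ : Measure TT) [IsProbabilityMeasure κ] (m : ℤ) :
    hat (cp r κ) m = Complex.exp (-((r : ℝ) : ℂ) + (r : ℝ) * hat κ m) := by
  have hint : Integrable (fun x : TT => (fourier m x : ℂ)) (cp r κ) := integrable_f _ m
  have h1 : hat (cp r κ) m = ∑' j : ℕ, ((w r j : ℝ) : ℂ) * hat κ m ^ j := by
    unfold hat cp
    rw [integral_sum_measure hint]
    refine tsum_congr fun j => ?_
    rw [integral_smul_measure, ENNReal.toReal_ofReal (w_nonneg r j)]
    have := hat_nfold j κ m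
    unfold hat at this
    rw [this]
    rfl
  rw [h1, Complex.exp_add]
  have h2 : Complex.exp (((r : ℝ) : ℂ) * hat κ m) =
      ∑' j : ℕ, (((r : ℝ) : ℂ) * hat κ m) ^ j / (j ! : ℂ) := by
    rw [Complex.exp_eq_exp_ℂ, (NormedSpace.expSeries_div_hasSum_exp _).tsum_eq]
  rw [h2, ← tsum_mul_left]
  refine tsum_congr fun j => ?_
  unfold w
  push_cast
  rw [mul_pow]
  ring

lemma nfold_atom {κ : Measure TT} [IsProbabilityMeasure κ] {b : ENNReal} (h : ∀ x, κ {x} ≤ b)
    (j : ℕ) (hj : j ≠ 0) (x : TT) : nfold j κ {x} ≤ b := by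
  obtain ⟨i, rfl⟩ := Nat.exists_eq_succ_of_ne_zero hj
  have e : nfold (i + 1) κ = conv (nfold i κ) κ := by
    apply ext_hat
    intro m
    rw [hat_conv, hat_nfold, hat_nfold, pow_succ]
  rw [Nat.succ_eq_add_one, e]
  exact conv_atom h x

lemma cp_atom (r : ℝ≥0) {κ : Measure TT} [IsProbabilityMeasure κ] {b : ENNReal}
    (h : ∀ x, κ {x} ≤ b) (x : TT) : cp r κ {x} ≤ ENNReal.ofReal (Real.exp (-r)) + b := by
  unfold cp
  rw [Measure.sum_apply _ (measurableSet_singleton x)]
  have h1 : ∀ j : ℕ, (ENNReal.ofReal (w r j) • nfold j κ) {x} ≤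
      (if j = 0 then ENNReal.ofReal (Real.exp (-r)) else 0) + ENNReal.ofReal (w r j) * b := by
    intro j
    rw [Measure.smul_apply, smul_eq_mul]
    by_cases hj : j = 0
    · subst hj
      simp only [if_true]
      have e : w r 0 = Real.exp (-r) := by unfold w; simp
      rw [e]
      refine le_trans ?_ le_self_add
      calc _ ≤ ENNReal.ofReal (Real.exp (-r)) * 1 := by gcongr; exact prob_le_one
        _ = _ := mul_one _
    · rw [if_neg hj, zero_add]
      gcongr
      exact nfold_atom h j hj x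
  refine (ENNReal.tsum_le_tsum h1).trans ?_
  rw [ENNReal.tsum_add, ENNReal.tsum_mul_right, w_sum, one_mul, tsum_ite_eq]

/-- the compound Poisson law of a finite measure -/
theorem exists_cp (κ : Measure TT) [IsFiniteMeasure κ] : ∃ ν : Measure TT,
    IsProbabilityMeasure ν ∧
    (∀ m, hat ν m = Complex.exp (-∫ x, (1 - (fourier m x : ℂ)) ∂κ)) ∧
    ∀ a : ℝ, 0 ≤ a → (∀ x, κ.real {x} ≤ a) → 0 < κ.real Set.univ → ∀ x,
      ν.real {x} ≤ Real.exp (-κ.real Set.univ) + a / κ.real Set.univ := by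
  by_cases h0 : κ = 0
  · subst h0
    refine ⟨Measure.dirac 0, inferInstance, fun m => ?_, fun a _ _ h => ?_⟩
    · unfold hat
      rw [integral_dirac, f_zero]
      simp
    · simp at h
  · set r : ℝ≥0 := ⟨κ.real Set.univ, measureReal_nonneg⟩ with hr
    have hu0 : κ Set.univ ≠ 0 := by rwa [Ne, Measure.measure_univ_eq_zero]
    have huT : κ Set.univ ≠ ⊤ := measure_ne_top _ _
    have hr0 : 0 < κ.real Set.univ := ENNReal.toReal_pos hu0 huT
    set κ0 : Measure TT := (κ Set.univ)⁻¹ • κ with hκ0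
    haveI : IsProbabilityMeasure κ0 := ⟨by
      rw [hκ0, Measure.smul_apply, smul_eq_mul, ENNReal.inv_mul_cancel hu0 huT]⟩
    have hhat : ∀ m, ((r : ℝ) : ℂ) * hat κ0 m = hat κ m := by
      intro m
      unfold hat
      rw [hκ0, integral_smul_measure, ENNReal.toReal_inv]
      have e : ((κ Set.univ).toReal : ℝ) = (r : ℝ) := rfl
      rw [e, Complex.real_smul, ← mul_assoc]
      have : ((r : ℝ) : ℂ) * (((r : ℝ)⁻¹ : ℝ) : ℂ) = 1 := by
        rw [← Complex.ofReal_mul, mul_inv_cancel₀ (by exact hr0.ne'), Complex.ofReal_one]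
      rw [this, one_mul]
    refine ⟨cp r κ0, inferInstance, fun m => ?_, fun a ha hat _ x => ?_⟩
    · rw [hat_cp, hhat]
      congr 1
      have hi := integrable_f κ m
      rw [integral_sub (integrable_const _) hi]
      simp only [integral_const, smul_eq_mul, mul_one]
      unfold hat
      rw [Complex.real_smul, mul_one]
      have e : ((r : ℝ) : ℂ) = ((κ.real Set.univ : ℝ) : ℂ) := rfl
      rw [e]; ring
    · have h1 : ∀ x, κ0 {x} ≤ ENNReal.ofReal (a / κ.real Set.univ) := by
        intro x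
        rw [hκ0, Measure.smul_apply, smul_eq_mul, ENNReal.ofReal_div_of_pos hr0,
          ENNReal.div_eq_inv_mul]
        have e1 : ENNReal.ofReal (κ.real Set.univ) = κ Set.univ := ENNReal.ofReal_toReal huT
        rw [e1]
        gcongr
        rw [← ENNReal.ofReal_toReal (measure_ne_top κ {x})]
        exact ENNReal.ofReal_le_ofReal (hat x)
      have h2 := cp_atom r h1 x
      have e2 : (cp r κ0).real {x} ≤ (ENNReal.ofReal (Real.exp (-r)) +
          ENNReal.ofReal (a / κ.real Set.univ)).toReal :=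
        ENNReal.toReal_mono (by finiteness) h2
      rw [← ENNReal.ofReal_add (Real.exp_pos _).le (by positivity),
        ENNReal.toReal_ofReal (by positivity)] at e2
      exact e2

end Pool.Agent.R203.ID
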