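import Mathlib
import Pool.Agent.R203.ID.CP
import Pool.Agent.TH654.FC.Growth

/-!
Infinitely divisible laws on the circle from (possibly infinite) measures.
-/

set_option autoImplicit false
open MeasureTheory Filter Topology
open scoped NNReal ENNReal

namespace Pool.Agent.R203.ID

/-- Lévy measures without mass at zero and with finite first moment -/
structure Lev (L : Measure TT) : Prop where
  zero : L {0} = 0
  fin : ∀ r : ℝ, 0 < r → L {x | r ≤ ‖x‖} < ⊤
  int : Integrable (fun x : TT => ‖x‖) L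

lemma f_sub_one (m : ℤ) (x : TT) : ‖1 - (fourier m x : ℂ)‖ ≤ 2 * Real.pi * |(m : ℝ)| * ‖x‖ := by
  rw [norm_sub_rev, Pool.Agent.TH654.FC.fourier_eq_one]
  refine (Pool.Agent.TH654.FC.fourier_sub_one_le _).trans ?_
  have h := norm_zsmul_le (n := m) (a := x)
  rw [Int.norm_eq_abs] at h
  have : 0 ≤ 2 * Real.pi := by positivity
  nlinarith [mul_le_mul_of_nonneg_left h this]

lemma Lev.int_f {L : Measure TT} (hL : Lev L) (m : ℤ) :
    Integrable (fun x : TT => 1 - (fourier m x : ℂ)) L :=
  (hL.int.const_mul (2 * Real.pi * |(m : ℝ)|)).mono'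
    ((continuous_const.sub (fourier m).continuous).aestronglyMeasurable)
    (Eventually.of_forall fun x => f_sub_one m x)

/-- the truncations -/
def Ak (k : ℕ) : Set TT := {x | 1 / ((k : ℝ) + 1) ≤ ‖x‖}

lemma Ak_meas (k : ℕ) : MeasurableSet (Ak k) :=
  (isClosed_le continuous_const continuous_norm).measurableSet

lemma Ak_mono : Monotone Ak := by
  intro i j hij x hx
  have hx' : 1 / ((i : ℝ) + 1) ≤ ‖x‖ := hx
  show 1 / ((j : ℝ) + 1) ≤ ‖x‖
  refine le_trans ?_ hx'
  apply one_div_le_one_div_of_le (by positivity)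
  have : (i : ℝ) ≤ j := by exact_mod_cast hij
  linarith

lemma Ak_union : ⋃ k, Ak k = {0}ᶜ := by
  ext x
  rw [Set.mem_iUnion, Set.mem_compl_iff, Set.mem_singleton_iff]
  constructor
  · rintro ⟨k, hk⟩ rfl
    have hk' : 1 / ((k : ℝ) + 1) ≤ ‖(0 : TT)‖ := hk
    rw [norm_zero] at hk'
    have : (0 : ℝ) < 1 / ((k : ℝ) + 1) := by positivity
    linarith
  · intro hx
    obtain ⟨k, hk⟩ := exists_nat_one_div_lt (norm_pos_iff.2 hx)
    exact ⟨k, hk.le⟩

lemma Lev.restrict {L : Measure TT} (hL : Lev L) (s : Set TT) : Lev (L.restrict s) :=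
  ⟨le_antisymm ((Measure.restrict_le_self _).trans hL.zero.le) zero_le,
    fun r hr => (Measure.restrict_le_self _).trans_lt (hL.fin r hr), hL.int.restrict⟩

lemma Lev.finite_Ak {L : Measure TT} (hL : Lev L) (k : ℕ) : IsFiniteMeasure (L.restrict (Ak k)) :=
  ⟨by
    rw [Measure.restrict_apply_univ]
    exact hL.fin _ (by positivity)⟩

theorem exists_levy {L : Measure TT} (hL : Lev L) : ∃ ν : Measure TT, IsProbabilityMeasure ν ∧
    ∀ m, hat ν m = Complex.exp (-∫ x, (1 - (fourier m x : ℂ)) ∂L) := by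
  have h1 : ∀ k : ℕ, ∃ ν : Measure TT, IsProbabilityMeasure ν ∧
      ∀ m, hat ν m = Complex.exp (-∫ x in Ak k, (1 - (fourier m x : ℂ)) ∂L) := by
    intro k
    haveI := hL.finite_Ak k
    obtain ⟨ν, h1, h2, -⟩ := exists_cp (L.restrict (Ak k))
    exact ⟨ν, h1, h2⟩
  choose ν hν hhat using h1
  refine exists_limit ν hν _ fun m => ?_
  simp only [hhat]
  apply (Complex.continuous_exp.tendsto _).comp
  apply Tendsto.neg
  have h2 := tendsto_setIntegral_of_monotone (μ := L) (f := fun x : TT => 1 - (fourier m x : ℂ))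
    Ak_meas Ak_mono (hL.int_f m).integrableOn
  rw [Ak_union] at h2
  rwa [setIntegral_eq_integral_of_forall_compl_eq_zero] at h2
  intro x hx
  rw [Set.notMem_compl_iff, Set.mem_singleton_iff] at hx
  rw [hx, f_zero, sub_self]

theorem levy_atomless {L : Measure TT} (hL : Lev L) (hinf : L Set.univ = ⊤) {a : ℝ} (ha : 0 ≤ a)
    (hat' : ∀ x : TT, x ≠ 0 → L {x} ≤ ENNReal.ofReal a) {ν : Measure TT} [IsProbabilityMeasure ν]
    (hν : ∀ m, hat ν m = Complex.exp (-∫ x, (1 - (fourier m x : ℂ)) ∂L)) (x : TT) : ν {x} = 0 := by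
  have key : ∀ B : ℝ, 0 < B → ν.real {x} ≤ Real.exp (-B) + a / B := by
    intro B hB
    have ht : Tendsto (fun k => L (Ak k)) atTop (𝓝 ⊤) := by
      have h1 := tendsto_measure_iUnion_atTop (μ := L) Ak_mono
      rw [Ak_union] at h1
      have h2 : L {0}ᶜ = ⊤ := by
        have h3 := measure_union_le (μ := L) ({0} : Set TT) {0}ᶜ
        rw [Set.union_compl_self, hinf, hL.zero, zero_add] at h3
        exact top_le_iff.1 h3
      rwa [h2] at h1
    obtain ⟨k, hk⟩ := (ht.eventually (lt_mem_nhds (show ENNReal.ofReal B < ⊤ by finiteness))).exists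
    haveI := hL.finite_Ak k
    obtain ⟨ν1, i1, h1, h2⟩ := exists_cp (L.restrict (Ak k))
    obtain ⟨ν2, i2, h3⟩ := exists_levy (hL.restrict (Ak k)ᶜ)
    have e : ν = conv ν2 ν1 := by
      apply ext_hat
      intro m
      rw [hat_conv, hν, h1, h3, ← Complex.exp_add, ← neg_add,
        add_comm (∫ x in (Ak k)ᶜ, (1 - (fourier m x : ℂ)) ∂L),
        integral_add_compl (Ak_meas k) (hL.int_f m)]
    have hmass : B ≤ (L.restrict (Ak k)).real Set.univ := by
      rw [measureReal_restrict_apply_univ, Measure.real]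
      rw [← ENNReal.toReal_ofReal hB.le]
      exact ENNReal.toReal_mono (hL.fin _ (by positivity)).ne hk.le
    have h4 := h2 a ha (fun y => by
      rw [measureReal_restrict_apply (measurableSet_singleton y)]
      by_cases hy : y = 0
      · subst hy
        have : ({0} ∩ Ak k : Set TT) = ∅ := by
          ext z
          simp only [Set.mem_inter_iff, Set.mem_singleton_iff, Set.mem_empty_iff_false, iff_false,
            not_and]
          rintro rfl hz
          have hz' : 1 / ((k : ℝ) + 1) ≤ ‖(0 : TT)‖ := hz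
          rw [norm_zero] at hz'
          have : (0 : ℝ) < 1 / ((k : ℝ) + 1) := by positivity
          linarith
        rw [this]
        simpa using ha
      · rw [Measure.real]
        have h5 : L ({y} ∩ Ak k) ≤ ENNReal.ofReal a :=
          (measure_mono Set.inter_subset_left).trans (hat' y hy)
        have := ENNReal.toReal_mono (by finiteness) h5
        rwa [ENNReal.toReal_ofReal ha] at this) (by linarith)
    have h5 : ∀ y, ν1 {y} ≤ ENNReal.ofReal (Real.exp (-B) + a / B) := by
      intro y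
      have h6 := h4 y
      have h7 : ν1.real {y} ≤ Real.exp (-B) + a / B := by
        refine h6.trans ?_
        gcongr
      rw [← ENNReal.ofReal_toReal (measure_ne_top ν1 {y})]
      exact ENNReal.ofReal_le_ofReal h7
    have h6 := conv_atom (μ := ν2) h5 x
    rw [← e] at h6
    have := ENNReal.toReal_mono (by finiteness) h6
    rwa [ENNReal.toReal_ofReal (by positivity)] at this
  have h0 : ν.real {x} ≤ 0 := by
    have ht : Tendsto (fun B : ℝ => Real.exp (-B) + a / B) atTop (𝓝 (0 + 0)) := by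
      apply Tendsto.add
      · exact Real.tendsto_exp_neg_atTop_nhds_zero
      · exact tendsto_const_nhds.div_atTop tendsto_id
    rw [add_zero] at ht
    exact ge_of_tendsto ht ((eventually_gt_atTop 0).mono fun B hB => key B hB)
  exact (measureReal_eq_zero_iff).1 (le_antisymm h0 measureReal_nonneg)

/-- infinite divisibility -/
theorem levy_roots {L : Measure TT} (hL : Lev L) {ν : Measure TT} [IsProbabilityMeasure ν]
    (hν : ∀ m, hat ν m = Complex.exp (-∫ x, (1 - (fourier m x : ℂ)) ∂L)) (n : ℕ) (hn : 1 ≤ n) :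
    ∃ ρ : Measure TT, IsProbabilityMeasure ρ ∧ nfold n ρ = ν := by
  have hnR : (0 : ℝ) < n := by exact_mod_cast hn
  have hc : ((n : ENNReal)⁻¹) ≠ ⊤ := ENNReal.inv_ne_top.2 (by exact_mod_cast (by omega : n ≠ 0))
  have hL' : Lev (((n : ENNReal)⁻¹) • L) := by
    refine ⟨?_, fun r hr => ?_, hL.int.smul_measure hc⟩
    · rw [Measure.smul_apply, hL.zero, smul_zero]
    · rw [Measure.smul_apply, smul_eq_mul]
      exact ENNReal.mul_lt_top (lt_top_iff_ne_top.2 hc) (hL.fin r hr)
  obtain ⟨ρ, hρ, h1⟩ := exists_levy hL'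
  refine ⟨ρ, hρ, ext_hat fun m => ?_⟩
  rw [hat_nfold, h1, hν, integral_smul_measure, ENNReal.toReal_inv, ENNReal.toReal_natCast,
    ← Complex.exp_nat_mul]
  congr 1
  rw [Complex.real_smul]
  push_cast
  have : (n : ℂ) ≠ 0 := by exact_mod_cast (by omega : n ≠ 0)
  field_simp

/-- invariance -/
theorem levy_inv {L : Measure TT} {d : ℕ}
    (hinv : MeasurePreserving (fun x : TT => d • x) L L) {ν : Measure TT} [IsProbabilityMeasure ν]
    (hν : ∀ m, hat ν m = Complex.exp (-∫ x, (1 - (fourier m x : ℂ)) ∂L)) :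
    MeasurePreserving (fun x : TT => d • x) ν ν := by
  rw [inv_iff]
  intro m
  rw [hν, hν]
  congr 2
  have h1 := integral_map (μ := L) (φ := fun x : TT => d • x) hinv.measurable.aemeasurable
    (f := fun x : TT => 1 - (fourier m x : ℂ))
    ((continuous_const.sub (fourier m).continuous).aestronglyMeasurable)
  rw [hinv.map_eq] at h1
  rw [h1]
  simp only [f_nsmul]

lemma hat_vol {n : ℤ} (hn : n ≠ 0) : hat (volume : Measure TT) n = 0 := by
  refine Pool.Agent.R202.coeff_zero (θ := Real.sqrt 2) irrational_sqrt_two ?_ hn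
  exact (measurePreserving_add_right volume _).map_eq

theorem levy_ne_vol {L : Measure TT} {ν : Measure TT}
    (hν : ∀ m, hat ν m = Complex.exp (-∫ x, (1 - (fourier m x : ℂ)) ∂L)) : ν ≠ volume := by
  intro h
  have h1 := hν 1
  rw [h, hat_vol one_ne_zero] at h1
  exact (Complex.exp_ne_zero _) h1.symm

end Pool.Agent.R203.ID
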