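import Mathlib
import Pool.Agent.R203.ID.Gap

/-!
The gap and infinitely divisible invariant measures; hitting open sets.
-/

set_option autoImplicit false
open MeasureTheory Filter Topology
open scoped NNReal ENNReal

namespace Pool.Agent.R203.ID

open Pool.Agent.TH654.FC (nsmul_norm_eq norm_le_half re_lower open_growth exists_killing)

/-- the symmetrised roots -/
lemma sym_root {p q : ℕ} {μ : Measure TT} [IsProbabilityMeasure μ]
    (hp : MeasurePreserving (fun x : TT => p • x) μ μ)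
    (hq : MeasurePreserving (fun x : TT => q • x) μ μ) {m : ℤ} {n : ℕ} (hn : 1 ≤ n)
    {ρ : Measure TT} [IsProbabilityMeasure ρ] (hρ : nfold n ρ = μ) (hne : hat μ m ≠ 0) :
    MeasurePreserving (fun x : TT => p • x) (sym m ρ) (sym m ρ) ∧
    MeasurePreserving (fun x : TT => q • x) (sym m ρ) (sym m ρ) ∧
    nfold n (sym m ρ) = sym m μ ∧
    1 - (hat (sym m ρ) 1).re ≤ (-2 * Real.log ‖hat μ m‖) / n := by
  have hn0 : n ≠ 0 := by omega
  have hnR : (0 : ℝ) < n := by exact_mod_cast (by omega : 0 < n)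
  have hk : ∀ k : ℤ, ‖hat ρ k‖ ^ n = ‖hat μ k‖ := by
    intro k
    rw [← hρ, hat_nfold, norm_pow]
  have hinv : ∀ d : ℕ, MeasurePreserving (fun x : TT => d • x) μ μ →
      MeasurePreserving (fun x : TT => d • x) (sym m ρ) (sym m ρ) := by
    intro d hd
    rw [inv_iff] at hd ⊢
    intro k
    rw [hat_sym, hat_sym]
    congr 2
    have h1 : ‖hat ρ (k * d * m)‖ ^ n = ‖hat ρ (k * m)‖ ^ n := by
      rw [hk, hk, show k * (d : ℤ) * m = k * m * d by ring, hd]
    exact (pow_left_inj₀ (norm_nonneg _) (norm_nonneg _) hn0).1 h1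
  refine ⟨hinv p hp, hinv q hq, ?_, ?_⟩
  · apply ext_hat
    intro k
    rw [hat_nfold, hat_sym, hat_sym, ← hk, ← Complex.ofReal_pow]
    congr 1
    rw [← pow_mul, ← pow_mul, mul_comm 2 n]
  · rw [hat_sym, Complex.ofReal_re, one_mul]
    have hpos : 0 < ‖hat μ m‖ := norm_pos_iff.2 hne
    have hρpos : 0 < ‖hat ρ m‖ := by
      rcases (norm_nonneg (hat ρ m)).lt_or_eq with h | h
      · exact h
      · exfalso
        have := hk m
        rw [← h, zero_pow hn0] at this
        linarith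
    have h1 : Real.log ‖hat ρ m‖ = Real.log ‖hat μ m‖ / n := by
      rw [← hk m, Real.log_pow]
      field_simp
    have h2 : ‖hat ρ m‖ ^ 2 = Real.exp (2 * Real.log ‖hat μ m‖ / n) := by
      rw [mul_div_assoc, ← h1, two_mul, Real.exp_add, Real.exp_log hρpos, sq]
    rw [h2]
    have h3 := Real.add_one_le_exp (2 * Real.log ‖hat μ m‖ / n)
    have h4 : -2 * Real.log ‖hat μ m‖ / n = -(2 * Real.log ‖hat μ m‖ / n) := by ring
    rw [h4]
    linarith

/-- **The gap implies rigidity of infinitely divisible measures.** -/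
theorem id_of_gap {p q : ℕ} {c : ℝ} (hc : 0 < c) (hG : Gap p q c) (μ : Measure TT)
    [IsProbabilityMeasure μ] (h0 : ∀ x, μ {x} = 0)
    (hp : MeasurePreserving (fun x : TT => p • x) μ μ)
    (hq : MeasurePreserving (fun x : TT => q • x) μ μ)
    (hid : ∀ n : ℕ, 1 ≤ n → ∃ ρ : Measure TT, IsProbabilityMeasure ρ ∧ nfold n ρ = μ) :
    μ = volume := by
  apply ext_hat
  intro m
  by_cases hm : m = 0
  · subst hm
    unfold hat
    simp [measureReal_def, AddCircle.measure_univ]
  rw [hat_vol hm]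
  by_contra hne
  set B : ℝ := -2 * Real.log ‖hat μ m‖ with hB
  have hB0 : 0 ≤ B := by
    have := Real.log_nonpos (norm_nonneg _) (norm_hat_le μ m)
    rw [hB]; linarith
  obtain ⟨n, hn⟩ := exists_nat_gt (B / c)
  have hnR : (0 : ℝ) < n := lt_of_le_of_lt (div_nonneg hB0 hc.le) hn
  have hn1 : 1 ≤ n := by
    have : 0 < n := by exact_mod_cast hnR
    omega
  obtain ⟨ρ, hρ, hρn⟩ := hid n hn1
  obtain ⟨h1, h2, h3, h4⟩ := sym_root hp hq hn1 hρn hne
  have h5 := gap_atom hG (sym m ρ) h1 h2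
  have h6 : c * (1 - (sym m ρ).real {0}) ≤ B / n := h5.trans h4
  have h7 : 0 < (sym m ρ).real {0} := by
    have h8 : 1 - (sym m ρ).real {0} ≤ B / n / c := by
      rw [le_div_iff₀ hc]; linarith
    have h9 : B / n / c < 1 := by
      rw [div_div, div_lt_one (by positivity)]
      rw [div_lt_iff₀ hc] at hn
      exact hn
    linarith
  have h8 : 0 < (sym m ρ) {0} := by
    rw [measureReal_def] at h7
    exact (ENNReal.toReal_pos_iff.1 h7).1
  have h9 := nfold_zero_ge n (sym m ρ)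
  rw [h3, sym_zero hm h0] at h9
  have h10 : 0 < (sym m ρ) {0} ^ n := ENNReal.pow_pos h8 n
  exact absurd (le_antisymm h9 zero_le) h10.ne'

/-- **The gap implies uniform visiting frequencies.** -/
theorem hit_of_gap {p q : ℕ} (hp : 2 ≤ p) (hq : 2 ≤ q)
    (hirr : Irrational (Real.log (p : ℝ) / Real.log (q : ℝ))) {c : ℝ} (hc : 0 < c)
    (hG : Gap p q c) {U : Set TT} (hU : IsOpen U) (hne : U.Nonempty) :
    ∃ C : ℝ≥0, ∀ μ : Measure TT, IsProbabilityMeasure μ →
      MeasurePreserving (fun x : TT => p • x) μ μ → MeasurePreserving (fun x : TT => q • x) μ μ →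
      μ {x | ∃ i j : ℕ, (p ^ i * q ^ j) • x ∈ U} ≤ C * μ U := by
  obtain ⟨κ₀, hκ0, -, -, hNC⟩ := Pool.Agent.TH461.FGK.nc hp hq hirr
  obtain ⟨d, hd, hdU⟩ := exists_killing hp hq hirr hU hne
  obtain ⟨C, hC0, hC⟩ := open_growth hp (κ := κ₀ + 1) (by linarith) (hNC (κ₀ + 1) (by linarith))
    hU hd hdU
  have hfin : {x : TT | d • x = 0}.Finite :=
    AddCircle.finite_torsion (p := (1 : ℝ)) (by omega : 0 < d)
  set N : ℕ := hfin.toFinset.card with hN
  refine ⟨⟨N + C / c, by positivity⟩, fun μ hμ hμp hμq => ?_⟩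
  have hUm : MeasurableSet U := hU.measurableSet
  have hmd : Measurable fun x : TT => (d : ℕ) • x := by fun_prop
  set V : Set TT := {x | ∃ i j : ℕ, (p ^ i * q ^ j) • x ∈ U} with hV
  have hpres : ∀ i j : ℕ, MeasurePreserving (fun x : TT => (p ^ i * q ^ j) • x) μ μ := by
    intro i j
    have := (mp_pow1 hμp i).comp (mp_pow1 hμq j)
    have e : (fun x : TT => (p ^ i * q ^ j) • x) =
        (fun x : TT => p ^ i • x) ∘ fun x : TT => q ^ j • x := by
      funext x
      simp only [Function.comp]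
      rw [← mul_smul]
    rw [e]; exact this
  -- the torsion part
  have hT : μ.real (V ∩ {x : TT | d • x = 0}) ≤ N * μ.real U := by
    have h1 : ∀ x ∈ V, μ.real {x} ≤ μ.real U := by
      rintro x ⟨i, j, hx⟩
      calc μ.real {x} ≤ μ.real ((fun x : TT => (p ^ i * q ^ j) • x) ⁻¹' U) := by
            apply measureReal_mono _ (measure_ne_top _ _)
            rintro y rfl
            exact hx
        _ = μ.real U := by
            rw [measureReal_def, measureReal_def, (hpres i j).measure_preimage hUm.nullMeasurableSet]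
    classical
    calc μ.real (V ∩ {x : TT | d • x = 0})
        ≤ μ.real (⋃ x ∈ hfin.toFinset.filter (· ∈ V), {x}) := by
          apply measureReal_mono _ (measure_ne_top _ _)
          intro x hx
          simp only [Finset.mem_filter, Set.Finite.mem_toFinset, Set.mem_iUnion,
            Set.mem_singleton_iff]
          exact ⟨x, ⟨hx.2, hx.1⟩, rfl⟩
      _ ≤ ∑ x ∈ hfin.toFinset.filter (· ∈ V), μ.real {x} := measureReal_biUnion_finset_le _ _
      _ ≤ ∑ _x ∈ hfin.toFinset.filter (· ∈ V), μ.real U := by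
          apply Finset.sum_le_sum
          intro x hx
          exact h1 x (Finset.mem_filter.1 hx).2
      _ = (hfin.toFinset.filter (· ∈ V)).card * μ.real U := by
          rw [Finset.sum_const, nsmul_eq_mul]
      _ ≤ N * μ.real U := by
          apply mul_le_mul_of_nonneg_right _ measureReal_nonneg
          exact_mod_cast Finset.card_filter_le _ _
  -- the rest
  have hR : μ.real {x : TT | d • x = 0}ᶜ ≤ C / c * μ.real U := by
    set ν : Measure TT := μ.map fun x : TT => d • x with hν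
    have hνp : IsProbabilityMeasure ν := Measure.isProbabilityMeasure_map hmd.aemeasurable
    have h1 := gap_atom hG ν (mp_map_nsmul hμp) (mp_map_nsmul hμq)
    have h2 : ν.real {0} = μ.real {x : TT | d • x = 0} := by
      rw [hν, map_measureReal_apply hmd (measurableSet_singleton 0)]
      rfl
    have h3 : hat ν 1 = hat μ d := by
      rw [hν, hat_map_nsmul, one_mul]
    have h4 := hC μ hμ hμp hμq 1 le_rfl
    simp only [Nat.cast_one, mul_one, Real.log_one, add_zero, Real.one_rpow] at h4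
    have h5 : μ.real {x : TT | d • x = 0}ᶜ = 1 - μ.real {x : TT | d • x = 0} := by
      have hms : MeasurableSet {x : TT | d • x = 0} := hmd (measurableSet_singleton 0)
      rw [measureReal_compl hms]; simp
    rw [h5, div_mul_eq_mul_div, le_div_iff₀ hc, mul_comm, ← h2]
    rw [h3] at h1
    exact h1.trans h4
  have hfinal : μ.real V ≤ (N + C / c) * μ.real U := by
    calc μ.real V ≤ μ.real (V ∩ {x : TT | d • x = 0}) + μ.real {x : TT | d • x = 0}ᶜ := by
          refine (measureReal_mono ?_ (measure_ne_top _ _)).trans (measureReal_union_le _ _)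
          intro x hx
          by_cases hx0 : d • x = 0
          · exact Or.inl ⟨hx, hx0⟩
          · exact Or.inr hx0
      _ ≤ N * μ.real U + C / c * μ.real U := add_le_add hT hR
      _ = _ := by ring
  rw [← ofReal_measureReal (measure_ne_top μ V), ← ofReal_measureReal (measure_ne_top μ U)]
  refine (ENNReal.ofReal_le_ofReal hfinal).trans (le_of_eq ?_)
  rw [ENNReal.ofReal_mul (by positivity)]
  congr 1
  exact ENNReal.ofReal_eq_coe_nnreal _

/-- **Uniform visiting frequencies imply the gap.** -/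
theorem gap_of_hit {p q : ℕ} (hp : 2 ≤ p)
    (h : ∀ U : Set TT, IsOpen U → U.Nonempty → ∃ C : ℝ≥0, ∀ μ : Measure TT,
      IsProbabilityMeasure μ → MeasurePreserving (fun x : TT => p • x) μ μ →
      MeasurePreserving (fun x : TT => q • x) μ μ →
      μ {x | ∃ i j : ℕ, (p ^ i * q ^ j) • x ∈ U} ≤ C * μ U) : ∃ c : ℝ, 0 < c ∧ Gap p q c := by
  have hpR : (2 : ℝ) ≤ p := by exact_mod_cast hp
  set r : ℝ := 1 / (4 * p) with hr
  have hr0 : 0 < r := by positivity
  have hr4 : r < 1 / 2 := by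
    rw [hr, div_lt_div_iff₀ (by positivity) (by norm_num)]
    linarith
  have hr2 : r < 1 / (2 * p) := by
    rw [hr, div_lt_div_iff₀ (by positivity) (by positivity)]
    linarith
  obtain ⟨C, hC⟩ := h {x | r < ‖x‖} (isOpen_lt continuous_const continuous_norm)
    ⟨((1 / 2 : ℝ) : TT), by
      show r < ‖((1 / 2 : ℝ) : TT)‖
      have : ‖((1 / 2 : ℝ) : TT)‖ = 1 / 2 := by
        have := AddCircle.norm_half_period_eq (p := (1 : ℝ))
        rw [abs_one] at this
        exact this
      rw [this]; exact hr4⟩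
  have hC1 : 0 < (C : ℝ) + 1 := by positivity
  refine ⟨8 * r ^ 2 / (C + 1), by positivity, fun μ hμ hμp hμq h0 => ?_⟩
  have h1 := hC μ hμ hμp hμq
  have h2 : μ {x | ∃ i j : ℕ, (p ^ i * q ^ j) • x ∈ {x : TT | r < ‖x‖}} = 1 := by
    apply le_antisymm prob_le_one
    have h3 : μ {0}ᶜ = 1 := by
      rw [prob_compl_eq_one_sub (measurableSet_singleton 0), h0, tsub_zero]
    rw [← h3]
    apply measure_mono
    intro x hx
    obtain ⟨n, hn⟩ := exists_far hp (x := x) hx
    refine ⟨n, 0, ?_⟩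
    rw [pow_zero, mul_one]
    exact lt_of_lt_of_le hr2 hn
  rw [h2] at h1
  have h3 : (1 : ℝ) ≤ C * μ.real {x : TT | r < ‖x‖} := by
    have h4 := ENNReal.toReal_mono (by finiteness) h1
    rw [ENNReal.toReal_one, ENNReal.toReal_mul, ENNReal.coe_toReal] at h4
    exact h4
  have h5 : μ.real {x : TT | r < ‖x‖} ≤ (1 - (hat μ 1).re) / (8 * r ^ 2) :=
    (measureReal_mono (fun x (hx : r < ‖x‖) => hx.le) (measure_ne_top _ _)).trans (far_mass μ hr0)
  have h6 : (0 : ℝ) ≤ (1 - (hat μ 1).re) / (8 * r ^ 2) := measureReal_nonneg.trans h5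
  have h7 : 1 ≤ (C + 1 : ℝ) * ((1 - (hat μ 1).re) / (8 * r ^ 2)) := by
    calc (1 : ℝ) ≤ C * μ.real {x : TT | r < ‖x‖} := h3
      _ ≤ C * ((1 - (hat μ 1).re) / (8 * r ^ 2)) := mul_le_mul_of_nonneg_left h5 C.2
      _ ≤ _ := by
        apply mul_le_mul_of_nonneg_right _ h6
        linarith
  have h8 : 8 * r ^ 2 / (C + 1) ≤ 1 - (hat μ 1).re := by
    rw [div_le_iff₀ hC1]
    rw [mul_div_assoc', le_div_iff₀ (by positivity)] at h7
    linarith
  linarith

/-- the gap for all coefficients -/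
lemma gap_all {p q : ℕ} {c : ℝ} (hG : Gap p q c) (μ : Measure TT) [IsProbabilityMeasure μ]
    (hp : MeasurePreserving (fun x : TT => p • x) μ μ)
    (hq : MeasurePreserving (fun x : TT => q • x) μ μ) (m : ℤ) (h0 : μ {x | m • x = 0} = 0) :
    (hat μ m).re ≤ 1 - c := by
  have hm : Measurable fun x : TT => m • x := by fun_prop
  set ν : Measure TT := μ.map fun x : TT => m • x with hν
  have hνp : IsProbabilityMeasure ν := Measure.isProbabilityMeasure_map hm.aemeasurable
  have hh : ∀ k : ℤ, hat ν k = hat μ (k * m) := fun k => hat_map_smul μ m k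
  have hinv : ∀ d : ℕ, MeasurePreserving (fun x : TT => d • x) μ μ →
      MeasurePreserving (fun x : TT => d • x) ν ν := by
    intro d hd
    rw [inv_iff] at hd ⊢
    intro k
    rw [hh, hh, show k * (d : ℤ) * m = k * m * d by ring, hd]
  have := hG ν hνp (hinv p hp) (hinv q hq) (by
    rw [hν, Measure.map_apply hm (measurableSet_singleton 0)]
    exact h0)
  rw [hh, one_mul] at this
  exact this

/-- mass near zero of sums -/
lemma nfold_ball (n : ℕ) (μ : Measure TT) [IsProbabilityMeasure μ] (s : ℝ) :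
    μ {x | ‖x‖ < s} ^ n ≤ nfold n μ {x | ‖x‖ ≤ n * s} := by
  unfold nfold
  have hm : MeasurableSet {x : TT | ‖x‖ ≤ n * s} :=
    (isClosed_le continuous_norm continuous_const).measurableSet
  rw [Measure.map_apply (meas_sum n) hm]
  calc μ {x | ‖x‖ < s} ^ n = (Measure.pi fun _ : Fin n => μ) (Set.univ.pi fun _ => {x | ‖x‖ < s}) := by
        rw [Measure.pi_pi]; simp
    _ ≤ _ := by
        apply measure_mono
        intro y hy
        simp only [Set.mem_pi, Set.mem_univ, forall_const] at hy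
        show ‖∑ i, y i‖ ≤ n * s
        calc ‖∑ i, y i‖ ≤ ∑ i, ‖y i‖ := norm_sum_le _ _
          _ ≤ ∑ _i : Fin n, s := Finset.sum_le_sum fun i _ => (hy i).le
          _ = n * s := by simp

/-- **Infinitely divisible invariant measures have a slowly decaying mass near the diagonal.** -/
theorem slow {p q : ℕ} {κ : ℝ} (hκ : 0 < κ) (hNC : Pool.Agent.TH654.FC.NC p q κ)
    (μ : Measure TT) [IsProbabilityMeasure μ]
    (hp : MeasurePreserving (fun x : TT => p • x) μ μ)
    (hq : MeasurePreserving (fun x : TT => q • x) μ μ)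
    (hid : ∀ n : ℕ, 1 ≤ n → ∃ ρ : Measure TT, IsProbabilityMeasure ρ ∧ nfold n ρ = μ)
    {m : ℤ} (hne : hat μ m ≠ 0) :
    ∃ C : ℝ, ∀ t : ℝ, 1 ≤ t →
      ENNReal.ofReal (Real.exp (-(C * t ^ κ))) ≤
        (μ.prod μ) {z | ‖m • (z.1 - z.2)‖ ≤ Real.exp (-t)} := by
  obtain ⟨C0, hC0⟩ := hNC
  set r1 : ℝ := 1 / (1 + max (p : ℝ) (q : ℝ)) with hr1
  have hr10 : 0 < r1 := by positivity
  set B : ℝ := -2 * Real.log ‖hat μ m‖ with hB
  have hB0 : 0 ≤ B := by
    have := Real.log_nonpos (norm_nonneg _) (norm_hat_le μ m)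
    rw [hB]; linarith
  set D : ℝ := |C0| * (B / (8 * r1 ^ 2)) with hD
  have hD0 : 0 ≤ D := by positivity
  -- the roots concentrate near zero
  have key : ∀ (n : ℕ), 1 ≤ n → ∀ s : ℝ, 1 ≤ s → ∃ ρ : Measure TT, IsProbabilityMeasure ρ ∧
      nfold n ρ = sym m μ ∧ ρ.real {x | Real.exp (-s) ≤ ‖x‖} ≤ D * s ^ κ / n := by
    intro n hn s hs
    have hnR : (0 : ℝ) < n := by exact_mod_cast (by omega : 0 < n)
    obtain ⟨ρ, hρ, hρn⟩ := hid n hn
    obtain ⟨h1, h2, h3, h4⟩ := sym_root hp hq hn hρn hne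
    refine ⟨sym m ρ, inferInstance, h3, ?_⟩
    have h5 := hC0 (sym m ρ) inferInstance h1 h2 s hs
    have h6 := far_mass (sym m ρ) hr10
    have hs0 : 0 ≤ s ^ κ := Real.rpow_nonneg (by linarith) _
    calc (sym m ρ).real {x | Real.exp (-s) ≤ ‖x‖}
        ≤ C0 * s ^ κ * (sym m ρ).real {x : TT | r1 ≤ ‖x‖} := h5
      _ ≤ |C0| * s ^ κ * (sym m ρ).real {x : TT | r1 ≤ ‖x‖} := by
          apply mul_le_mul_of_nonneg_right _ measureReal_nonneg
          exact mul_le_mul_of_nonneg_right (le_abs_self _) hs0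
      _ ≤ |C0| * s ^ κ * ((1 - (hat (sym m ρ) 1).re) / (8 * r1 ^ 2)) :=
          mul_le_mul_of_nonneg_left h6 (by positivity)
      _ ≤ |C0| * s ^ κ * ((B / n) / (8 * r1 ^ 2)) := by
          apply mul_le_mul_of_nonneg_left _ (by positivity)
          exact div_le_div_of_nonneg_right h4 (by positivity)
      _ = D * s ^ κ / n := by rw [hD]; field_simp
  -- a large time
  have hev : ∀ᶠ t : ℝ in atTop, 2 * D * (2 * t) ^ κ + 2 ≤ Real.exp t := by
    have h1 : (fun t : ℝ => t ^ κ) =o[atTop] fun t : ℝ => Real.exp (1 * t) :=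
      isLittleO_rpow_exp_pos_mul_atTop κ one_pos
    have h2 := h1.def (show (0 : ℝ) < 1 / (2 * (2 * D * 2 ^ κ + 1)) by positivity)
    have h3 : ∀ᶠ t : ℝ in atTop, 4 ≤ Real.exp t := Real.tendsto_exp_atTop.eventually_ge_atTop 4
    filter_upwards [h2, h3, eventually_ge_atTop 1] with t h2 h3 h4
    rw [Real.norm_of_nonneg (Real.rpow_nonneg (by linarith) _),
      Real.norm_of_nonneg (Real.exp_pos _).le, one_mul] at h2
    rw [Real.mul_rpow (by norm_num) (by linarith)]
    have h5 : 0 ≤ t ^ κ := Real.rpow_nonneg (by linarith) _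
    have h6 : (2 * D * 2 ^ κ + 1) * t ^ κ ≤ Real.exp t / 2 := by
      calc (2 * D * 2 ^ κ + 1) * t ^ κ
          ≤ (2 * D * 2 ^ κ + 1) * (1 / (2 * (2 * D * 2 ^ κ + 1)) * Real.exp t) :=
            mul_le_mul_of_nonneg_left h2 (by positivity)
        _ = Real.exp t / 2 := by
            have : (2 * D * 2 ^ κ + 1 : ℝ) ≠ 0 := by positivity
            field_simp
    linarith
  obtain ⟨T1, hT1⟩ := eventually_atTop.1 hev
  set T0 : ℝ := max T1 1 with hT0
  have hT01 : 1 ≤ T0 := le_max_right _ _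
  refine ⟨2 * D * (2 * T0) ^ κ + 2, fun t ht => ?_⟩
  set t' : ℝ := max t T0 with ht'
  have ht'1 : 1 ≤ t' := ht.trans (le_max_left _ _)
  have ht'T : t' ≤ T0 * t := by
    apply max_le
    · nlinarith
    · nlinarith
  set n : ℕ := ⌈2 * D * (2 * t') ^ κ⌉₊ + 1 with hn
  have hs0 : 0 ≤ (2 * t') ^ κ := Real.rpow_nonneg (by linarith) _
  have hn1 : 1 ≤ n := by omega
  have hnR : (0 : ℝ) < n := by exact_mod_cast (by omega : 0 < n)
  have hnge : 2 * D * (2 * t') ^ κ ≤ n := by
    have := Nat.le_ceil (2 * D * (2 * t') ^ κ)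
    rw [hn]; push_cast; linarith
  have hnle : (n : ℝ) ≤ 2 * D * (2 * t') ^ κ + 2 := by
    have := (Nat.ceil_lt_add_one (show 0 ≤ 2 * D * (2 * t') ^ κ by positivity)).le
    rw [hn]; push_cast; linarith
  have hnexp : (n : ℝ) ≤ Real.exp t' :=
    hnle.trans (hT1 t' ((le_max_left _ _).trans (le_max_right _ _)))
  obtain ⟨ρ, hρ, hρn, hρm⟩ := key n hn1 (2 * t') (by linarith)
  have h1 : ρ.real {x | Real.exp (-(2 * t')) ≤ ‖x‖} ≤ 1 / 2 := by
    refine hρm.trans ?_
    rw [div_le_iff₀ hnR]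
    linarith
  have h2 : (1 / 2 : ℝ) ≤ ρ.real {x | ‖x‖ < Real.exp (-(2 * t'))} := by
    have hm : MeasurableSet {x : TT | Real.exp (-(2 * t')) ≤ ‖x‖} :=
      (isClosed_le continuous_const continuous_norm).measurableSet
    have h3 : {x : TT | ‖x‖ < Real.exp (-(2 * t'))} = {x : TT | Real.exp (-(2 * t')) ≤ ‖x‖}ᶜ := by
      ext x
      simp
    rw [h3, measureReal_compl hm]
    simp only [probReal_univ]
    linarith
  have h3 := nfold_ball n ρ (Real.exp (-(2 * t')))
  rw [hρn] at h3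
  have h4 : (n : ℝ) * Real.exp (-(2 * t')) ≤ Real.exp (-t) := by
    calc (n : ℝ) * Real.exp (-(2 * t')) ≤ Real.exp t' * Real.exp (-(2 * t')) :=
          mul_le_mul_of_nonneg_right hnexp (Real.exp_pos _).le
      _ = Real.exp (-t') := by rw [← Real.exp_add]; congr 1; ring
      _ ≤ Real.exp (-t) := Real.exp_le_exp.2 (neg_le_neg (le_max_left _ _))
  have h5 : ENNReal.ofReal (Real.exp (-((2 * D * (2 * T0) ^ κ + 2) * t ^ κ))) ≤
      ρ {x | ‖x‖ < Real.exp (-(2 * t'))} ^ n := by
    have h6 : Real.exp (-((2 * D * (2 * T0) ^ κ + 2) * t ^ κ)) ≤ (1 / 2 : ℝ) ^ n := by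
      have h7 : (n : ℝ) ≤ (2 * D * (2 * T0) ^ κ + 2) * t ^ κ := by
        have h8 : (2 * t') ^ κ ≤ (2 * T0) ^ κ * t ^ κ := by
          rw [← Real.mul_rpow (by linarith) (by linarith)]
          apply Real.rpow_le_rpow (by linarith) _ hκ.le
          linarith
        have h9 : 1 ≤ t ^ κ := Real.one_le_rpow ht hκ.le
        calc (n : ℝ) ≤ 2 * D * (2 * t') ^ κ + 2 := hnle
          _ ≤ 2 * D * ((2 * T0) ^ κ * t ^ κ) + 2 * t ^ κ := by
              have := mul_le_mul_of_nonneg_left h8 (show 0 ≤ 2 * D by positivity)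
              linarith
          _ = _ := by ring
      have h10 : Real.exp (-1) ≤ 1 / 2 := by
        rw [Real.exp_neg, ← one_div]
        apply one_div_le_one_div_of_le (by norm_num)
        have := Real.add_one_le_exp 1
        linarith
      calc Real.exp (-((2 * D * (2 * T0) ^ κ + 2) * t ^ κ)) ≤ Real.exp (-(n : ℝ)) :=
            Real.exp_le_exp.2 (neg_le_neg h7)
        _ = Real.exp (-1) ^ n := by rw [← Real.exp_nat_mul]; congr 1; ring
        _ ≤ (1 / 2 : ℝ) ^ n := pow_le_pow_left₀ (Real.exp_pos _).le h10 n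
    calc ENNReal.ofReal (Real.exp (-((2 * D * (2 * T0) ^ κ + 2) * t ^ κ)))
        ≤ ENNReal.ofReal ((1 / 2 : ℝ) ^ n) := ENNReal.ofReal_le_ofReal h6
      _ = ENNReal.ofReal (1 / 2) ^ n := ENNReal.ofReal_pow (by norm_num) n
      _ ≤ ENNReal.ofReal (ρ.real {x | ‖x‖ < Real.exp (-(2 * t'))}) ^ n := by
          gcongr
      _ = _ := by rw [ofReal_measureReal (measure_ne_top _ _)]
  refine h5.trans (h3.trans ?_)
  have h6 : sym m μ {x | ‖x‖ ≤ n * Real.exp (-(2 * t'))} ≤ sym m μ {x | ‖x‖ ≤ Real.exp (-t)} :=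
    measure_mono fun x (hx : ‖x‖ ≤ n * Real.exp (-(2 * t'))) => hx.trans h4
  refine h6.trans (le_of_eq ?_)
  unfold sym
  have hm : MeasurableSet {x : TT | ‖x‖ ≤ Real.exp (-t)} :=
    (isClosed_le continuous_norm continuous_const).measurableSet
  rw [Measure.map_apply (by fun_prop) hm]
  rfl

end Pool.Agent.R203.ID
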